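import Pool.Agent.Q4.ZO.Stm

/-!
Job ZO-NRM: `tNrm : Q4.ZO.SNrm` (the sign changes normalise `EO`, elements of `Ga` are isometries).
-/

set_option autoImplicit false

open Matrix

namespace Pool.Agent.Q153.ZO

open Q4.ZO

section

variable {R : Type} [CommRing R] {p q : ℕ} (d : Fin q → R)

theorem qf_add (v w : Ix p q → R) : Qf d (v + w) = Qf d v + Qf d w + Bf d v w := by
  unfold Qf Bf
  have h1 : ∑ i : Fin p, (v + w) (Sum.inl i) * (v + w) (Sum.inr (Sum.inl i)) =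
      ∑ i : Fin p, v (Sum.inl i) * v (Sum.inr (Sum.inl i)) +
      ∑ i : Fin p, w (Sum.inl i) * w (Sum.inr (Sum.inl i)) +
      ∑ i : Fin p, (v (Sum.inl i) * w (Sum.inr (Sum.inl i)) +
        v (Sum.inr (Sum.inl i)) * w (Sum.inl i)) := by
    rw [← Finset.sum_add_distrib, ← Finset.sum_add_distrib]
    apply Finset.sum_congr rfl
    intro i _
    simp only [Pi.add_apply]
    ring
  have h2 : ∑ k : Fin q, d k * (v + w) (Sum.inr (Sum.inr k)) ^ 2 =
      ∑ k : Fin q, d k * v (Sum.inr (Sum.inr k)) ^ 2 +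
      ∑ k : Fin q, d k * w (Sum.inr (Sum.inr k)) ^ 2 +
      ∑ k : Fin q, 2 * d k * v (Sum.inr (Sum.inr k)) * w (Sum.inr (Sum.inr k)) := by
    rw [← Finset.sum_add_distrib, ← Finset.sum_add_distrib]
    apply Finset.sum_congr rfl
    intro i _
    simp only [Pi.add_apply]
    ring
  rw [h1, h2]
  ring

theorem qf_smul (c : R) (v : Ix p q → R) : Qf d (c • v) = c ^ 2 * Qf d v := by
  unfold Qf
  rw [mul_add, Finset.mul_sum, Finset.mul_sum]
  congr 1
  · apply Finset.sum_congr rfl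
    intro i _
    simp only [Pi.smul_apply, smul_eq_mul]
    ring
  · apply Finset.sum_congr rfl
    intro i _
    simp only [Pi.smul_apply, smul_eq_mul]
    ring

theorem bf_comm (v w : Ix p q → R) : Bf d v w = Bf d w v := by
  unfold Bf
  congr 1
  · apply Finset.sum_congr rfl
    intro i _
    ring
  · apply Finset.sum_congr rfl
    intro i _
    ring

theorem bf_add_left (v v' w : Ix p q → R) : Bf d (v + v') w = Bf d v w + Bf d v' w := by
  unfold Bf
  have h1 : ∑ i : Fin p, ((v + v') (Sum.inl i) * w (Sum.inr (Sum.inl i)) +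
        (v + v') (Sum.inr (Sum.inl i)) * w (Sum.inl i)) =
      ∑ i : Fin p, (v (Sum.inl i) * w (Sum.inr (Sum.inl i)) +
        v (Sum.inr (Sum.inl i)) * w (Sum.inl i)) +
      ∑ i : Fin p, (v' (Sum.inl i) * w (Sum.inr (Sum.inl i)) +
        v' (Sum.inr (Sum.inl i)) * w (Sum.inl i)) := by
    rw [← Finset.sum_add_distrib]
    apply Finset.sum_congr rfl
    intro i _
    simp only [Pi.add_apply]
    ring
  have h2 : ∑ k : Fin q, 2 * d k * (v + v') (Sum.inr (Sum.inr k)) * w (Sum.inr (Sum.inr k)) =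
      ∑ k : Fin q, 2 * d k * v (Sum.inr (Sum.inr k)) * w (Sum.inr (Sum.inr k)) +
      ∑ k : Fin q, 2 * d k * v' (Sum.inr (Sum.inr k)) * w (Sum.inr (Sum.inr k)) := by
    rw [← Finset.sum_add_distrib]
    apply Finset.sum_congr rfl
    intro i _
    simp only [Pi.add_apply]
    ring
  rw [h1, h2]
  ring

theorem bf_smul_left (c : R) (v w : Ix p q → R) : Bf d (c • v) w = c * Bf d v w := by
  unfold Bf
  rw [mul_add, Finset.mul_sum, Finset.mul_sum]
  congr 1
  · apply Finset.sum_congr rfl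
    intro i _
    simp only [Pi.smul_apply, smul_eq_mul]
    ring
  · apply Finset.sum_congr rfl
    intro i _
    simp only [Pi.smul_apply, smul_eq_mul]
    ring

theorem bf_smul_right (c : R) (v w : Ix p q → R) : Bf d v (c • w) = c * Bf d v w := by
  rw [bf_comm, bf_smul_left, bf_comm]

theorem bf_add_right (v w w' : Ix p q → R) : Bf d v (w + w') = Bf d v w + Bf d v w' := by
  rw [bf_comm, bf_add_left, bf_comm d w, bf_comm d w']

theorem iso_bf {x : GL (Ix p q) R} (hx : IsIso d x) (v w : Ix p q → R) :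
    Bf d (x.1 *ᵥ v) (x.1 *ᵥ w) = Bf d v w := by
  have h1 := qf_add d v w
  have h2 := qf_add d (x.1 *ᵥ v) (x.1 *ᵥ w)
  rw [← Matrix.mulVec_add, hx, hx, hx, h1] at h2
  linear_combination -h2

/-- the group of the isometries -/
def IsoG : Subgroup (GL (Ix p q) R) where
  carrier := {x | IsIso d x}
  one_mem' := by
    intro v
    rw [Units.val_one, Matrix.one_mulVec]
  mul_mem' := by
    intro x y hx hy v
    rw [Units.val_mul, ← Matrix.mulVec_mulVec, hx, hy]
  inv_mem' := by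
    intro x hx v
    have h1 : x.1 *ᵥ ((x⁻¹).1 *ᵥ v) = v := by
      rw [Matrix.mulVec_mulVec, ← Units.val_mul, mul_inv_cancel, Units.val_one,
        Matrix.one_mulVec]
    rw [← hx ((x⁻¹).1 *ᵥ v), h1]

theorem qf_ve (i : Fin p) : Qf d (ve R i : Ix p q → R) = 0 := by
  unfold Qf ve
  simp

theorem qf_vf (i : Fin p) : Qf d (vf R i : Ix p q → R) = 0 := by
  unfold Qf vf
  simp

theorem bf_ve (i : Fin p) (w : Ix p q → R) : Bf d w (ve R i) = w (Sum.inr (Sum.inl i)) := by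
  unfold Bf ve
  simp [Pi.single_apply]

theorem bf_vf (i : Fin p) (w : Ix p q → R) : Bf d w (vf R i) = w (Sum.inl i) := by
  unfold Bf vf
  simp [Pi.single_apply]

theorem gen_iso {x : GL (Ix p q) R} {u w : Ix p q → R} (h : IsGen d x u w) : IsIso d x := by
  obtain ⟨hx, i, hu, hw1, hw2⟩ := h
  have hQu : Qf d u = 0 := by
    rcases hu with rfl | rfl
    · exact qf_ve d i
    · exact qf_vf d i
  have hBu : Bf d w u = 0 := by
    rcases hu with rfl | rfl
    · rw [bf_ve, hw2]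
    · rw [bf_vf, hw1]
  intro v
  rw [hx v, sub_eq_add_neg, ← neg_smul, qf_add, qf_add, qf_smul, qf_smul, bf_add_left,
    bf_smul_right, bf_smul_right, bf_smul_right, bf_smul_left, hQu, hBu]
  ring

theorem eo_le : EO d ≤ IsoG (p := p) d := by
  unfold EO
  rw [Subgroup.closure_le]
  rintro x ⟨u, w, h⟩
  exact gen_iso d h

end

section

variable {R : Type} [CommRing R] {p q : ℕ}

theorem unit_smul (s : ℤˣ) : ∃ c : R, c * c = 1 ∧ ∀ v : Ix p q → R, s • v = c • v := by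
  refine ⟨((s : ℤ) : R), ?_, fun v => ?_⟩
  · rw [← Int.cast_mul, ← Units.val_mul, Int.units_mul_self]
    simp
  · rw [Units.smul_def, Int.cast_smul_eq_zsmul]

/-- coordinates of an element of `Dg` -/
theorem dg_coord {t : GL (Ix p q) R} (ht : t ∈ Dg R p q) (v : Ix p q → R) :
    (∀ i : Fin p, ∃ c : R, c * c = 1 ∧
      (((t.1 *ᵥ v) (Sum.inl i) = c * v (Sum.inl i) ∧
        (t.1 *ᵥ v) (Sum.inr (Sum.inl i)) = c * v (Sum.inr (Sum.inl i))) ∨
      ((t.1 *ᵥ v) (Sum.inl i) = c * v (Sum.inr (Sum.inl i)) ∧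
        (t.1 *ᵥ v) (Sum.inr (Sum.inl i)) = c * v (Sum.inl i)))) ∧
    ∀ k : Fin q, ∃ c : R, c * c = 1 ∧
      (t.1 *ᵥ v) (Sum.inr (Sum.inr k)) = c * v (Sum.inr (Sum.inr k)) := by
  obtain ⟨h1, h2⟩ := ht
  have hcol : ∀ j l, t.1 j l = (t.1 *ᵥ (Pi.single l 1 : Ix p q → R)) j := by
    intro j l
    rw [Matrix.mulVec_single_one]
    rfl
  -- the columns
  have cE : ∀ i : Fin p, ∃ c : R, c * c = 1 ∧
      (((∀ j, t.1 j (Sum.inl i) = c * (ve R i : Ix p q → R) j) ∧
        (∀ j, t.1 j (Sum.inr (Sum.inl i)) = c * (vf R i : Ix p q → R) j)) ∨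
      ((∀ j, t.1 j (Sum.inl i) = c * (vf R i : Ix p q → R) j) ∧
        (∀ j, t.1 j (Sum.inr (Sum.inl i)) = c * (ve R i : Ix p q → R) j))) := by
    intro i
    obtain ⟨s, hs⟩ := h1 i
    obtain ⟨c, hc, hcs⟩ := unit_smul (R := R) (p := p) (q := q) s
    refine ⟨c, hc, ?_⟩
    rcases hs with ⟨a, b⟩ | ⟨a, b⟩
    · left
      refine ⟨fun j => ?_, fun j => ?_⟩
      · rw [hcol]
        exact (congrFun (a.trans (hcs _)) j)
      · rw [hcol]
        exact (congrFun (b.trans (hcs _)) j)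
    · right
      refine ⟨fun j => ?_, fun j => ?_⟩
      · rw [hcol]
        exact (congrFun (a.trans (hcs _)) j)
      · rw [hcol]
        exact (congrFun (b.trans (hcs _)) j)
  have cG : ∀ k : Fin q, ∃ c : R, c * c = 1 ∧
      ∀ j, t.1 j (Sum.inr (Sum.inr k)) = c * (vg R k : Ix p q → R) j := by
    intro k
    obtain ⟨s, hs⟩ := h2 k
    obtain ⟨c, hc, hcs⟩ := unit_smul (R := R) (p := p) (q := q) s
    refine ⟨c, hc, fun j => ?_⟩
    rw [hcol]
    exact (congrFun (hs.trans (hcs _)) j)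
  have hsum : ∀ j, (t.1 *ᵥ v) j = ∑ i : Fin p, t.1 j (Sum.inl i) * v (Sum.inl i) +
      (∑ i : Fin p, t.1 j (Sum.inr (Sum.inl i)) * v (Sum.inr (Sum.inl i)) +
      ∑ k : Fin q, t.1 j (Sum.inr (Sum.inr k)) * v (Sum.inr (Sum.inr k))) := by
    intro j
    rw [Matrix.mulVec, dotProduct, Fintype.sum_sum_type, Fintype.sum_sum_type]
  -- vanishing entries
  have z1 : ∀ (j : Ix p q) (i : Fin p), j ≠ Sum.inl i → j ≠ Sum.inr (Sum.inl i) →
      t.1 j (Sum.inl i) = 0 ∧ t.1 j (Sum.inr (Sum.inl i)) = 0 := by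
    intro j i hj1 hj2
    have e1 : (ve R i : Ix p q → R) j = 0 := Pi.single_eq_of_ne hj1 1
    have e2 : (vf R i : Ix p q → R) j = 0 := Pi.single_eq_of_ne hj2 1
    obtain ⟨c, -, ⟨a, b⟩ | ⟨a, b⟩⟩ := cE i
    · rw [a, b, e1, e2, mul_zero]
      exact ⟨rfl, rfl⟩
    · rw [a, b, e1, e2, mul_zero]
      exact ⟨rfl, rfl⟩
  have z2 : ∀ (j : Ix p q) (k : Fin q), j ≠ Sum.inr (Sum.inr k) →
      t.1 j (Sum.inr (Sum.inr k)) = 0 := by
    intro j k hj
    have e1 : (vg R k : Ix p q → R) j = 0 := Pi.single_eq_of_ne hj 1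
    obtain ⟨c, -, a⟩ := cG k
    rw [a, e1, mul_zero]
  have row : ∀ (j : Ix p q) (i : Fin p), (j = Sum.inl i ∨ j = Sum.inr (Sum.inl i)) →
      (t.1 *ᵥ v) j = t.1 j (Sum.inl i) * v (Sum.inl i) +
        t.1 j (Sum.inr (Sum.inl i)) * v (Sum.inr (Sum.inl i)) := by
    intro j i hj
    have hne : ∀ i' : Fin p, i' ≠ i → j ≠ Sum.inl i' ∧ j ≠ Sum.inr (Sum.inl i') := by
      intro i' hi'
      rcases hj with rfl | rfl
      · exact ⟨fun h => hi' (Sum.inl.inj h).symm, fun h => Sum.inl_ne_inr h⟩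
      · exact ⟨fun h => Sum.inr_ne_inl h, fun h => hi' (Sum.inl.inj (Sum.inr.inj h)).symm⟩
    have hne2 : ∀ k : Fin q, j ≠ Sum.inr (Sum.inr k) := by
      intro k
      rcases hj with rfl | rfl
      · exact Sum.inl_ne_inr
      · exact fun h => Sum.inl_ne_inr (Sum.inr.inj h)
    rw [hsum j, Finset.sum_eq_single i, Finset.sum_eq_single i, Finset.sum_eq_zero, add_zero]
    · intro k _
      rw [z2 j k (hne2 k), zero_mul]
    · intro i' _ hi'
      rw [(z1 j i' (hne i' hi').1 (hne i' hi').2).2, zero_mul]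
    · intro h
      exact absurd (Finset.mem_univ i) h
    · intro i' _ hi'
      rw [(z1 j i' (hne i' hi').1 (hne i' hi').2).1, zero_mul]
    · intro h
      exact absurd (Finset.mem_univ i) h
  constructor
  · intro i
    obtain ⟨c, hc, hcase⟩ := cE i
    refine ⟨c, hc, ?_⟩
    have e11 : (ve R i : Ix p q → R) (Sum.inl i) = 1 := Pi.single_eq_same _ _
    have e12 : (ve R i : Ix p q → R) (Sum.inr (Sum.inl i)) = 0 :=
      Pi.single_eq_of_ne Sum.inr_ne_inl 1
    have e21 : (vf R i : Ix p q → R) (Sum.inl i) = 0 := Pi.single_eq_of_ne Sum.inl_ne_inr 1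
    have e22 : (vf R i : Ix p q → R) (Sum.inr (Sum.inl i)) = 1 := Pi.single_eq_same _ _
    rcases hcase with ⟨a, b⟩ | ⟨a, b⟩
    · left
      rw [row _ i (Or.inl rfl), row _ i (Or.inr rfl), a, a, b, b, e11, e12, e21, e22]
      constructor <;> ring
    · right
      rw [row _ i (Or.inl rfl), row _ i (Or.inr rfl), a, a, b, b, e11, e12, e21, e22]
      constructor <;> ring
  · intro k
    obtain ⟨c, hc, a⟩ := cG k
    refine ⟨c, hc, ?_⟩
    have e1 : (vg R k : Ix p q → R) (Sum.inr (Sum.inr k)) = 1 := Pi.single_eq_same _ _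
    rw [hsum, Finset.sum_eq_zero, Finset.sum_eq_zero, Finset.sum_eq_single k, a, e1]
    · ring
    · intro k' _ hk'
      rw [z2 _ k' (fun h => hk' (Sum.inr.inj (Sum.inr.inj h)).symm), zero_mul]
    · intro h
      exact absurd (Finset.mem_univ k) h
    · intro i _
      rw [(z1 _ i Sum.inr_ne_inl (fun h => Sum.inr_ne_inl (Sum.inr.inj h))).2, zero_mul]
    · intro i _
      rw [(z1 _ i Sum.inr_ne_inl (fun h => Sum.inr_ne_inl (Sum.inr.inj h))).1, zero_mul]

theorem dg_iso (d : Fin q → R) {t : GL (Ix p q) R} (ht : t ∈ Dg R p q) : IsIso d t := by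
  intro v
  obtain ⟨h1, h2⟩ := dg_coord ht v
  unfold Qf
  congr 1
  · apply Finset.sum_congr rfl
    intro i _
    obtain ⟨c, hc, ⟨a, b⟩ | ⟨a, b⟩⟩ := h1 i
    · rw [a, b]
      linear_combination (v (Sum.inl i) * v (Sum.inr (Sum.inl i))) * hc
    · rw [a, b]
      linear_combination (v (Sum.inl i) * v (Sum.inr (Sum.inl i))) * hc
  · apply Finset.sum_congr rfl
    intro k _
    obtain ⟨c, hc, a⟩ := h2 k
    rw [a]
    linear_combination (d k * v (Sum.inr (Sum.inr k)) ^ 2) * hc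

/-- conjugates of generators -/
theorem conj_gen (d : Fin q → R) {t x : GL (Ix p q) R} (ht : t ∈ Dg R p q)
    {u w : Ix p q → R} (hx : IsGen d x u w) :
    ∃ u' w', IsGen d (t * x * t⁻¹) u' w' := by
  obtain ⟨hE, i, hu, hw1, hw2⟩ := hx
  have hti := dg_iso d ht
  -- the image of `u`
  have htu : ∃ (c : R) (u' : Ix p q → R), c * c = 1 ∧ t.1 *ᵥ u = c • u' ∧
      (u' = ve R i ∨ u' = vf R i) := by
    obtain ⟨s, hs⟩ := ht.1 i
    obtain ⟨c, hc, hcs⟩ := unit_smul (R := R) (p := p) (q := q) s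
    rcases hs with ⟨a, b⟩ | ⟨a, b⟩
    · rcases hu with rfl | rfl
      · exact ⟨c, ve R i, hc, a.trans (hcs _), Or.inl rfl⟩
      · exact ⟨c, vf R i, hc, b.trans (hcs _), Or.inr rfl⟩
    · rcases hu with rfl | rfl
      · exact ⟨c, vf R i, hc, a.trans (hcs _), Or.inr rfl⟩
      · exact ⟨c, ve R i, hc, b.trans (hcs _), Or.inl rfl⟩
  obtain ⟨c, u', hc, hcu, hu'⟩ := htu
  have htw : (t.1 *ᵥ w) (Sum.inl i) = 0 ∧ (t.1 *ᵥ w) (Sum.inr (Sum.inl i)) = 0 := by
    obtain ⟨c', -, ⟨a, b⟩ | ⟨a, b⟩⟩ := (dg_coord ht w).1 i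
    · rw [a, b, hw1, hw2, mul_zero]
      exact ⟨rfl, rfl⟩
    · rw [a, b, hw1, hw2, mul_zero]
      exact ⟨rfl, rfl⟩
  refine ⟨u', c • (t.1 *ᵥ w), ?_, i, hu', ?_, ?_⟩
  · intro v
    have e0 : t.1 *ᵥ ((t⁻¹).1 *ᵥ v) = v := by
      rw [Matrix.mulVec_mulVec, ← Units.val_mul, mul_inv_cancel, Units.val_one,
        Matrix.one_mulVec]
    have e1 : (t * x * t⁻¹).1 *ᵥ v = t.1 *ᵥ (x.1 *ᵥ ((t⁻¹).1 *ᵥ v)) := by
      rw [Matrix.mulVec_mulVec, Matrix.mulVec_mulVec, Units.val_mul, Units.val_mul]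
    have b1 : Bf d ((t⁻¹).1 *ᵥ v) u = c * Bf d v u' := by
      rw [← iso_bf d hti, e0, hcu, bf_smul_right]
    have b2 : Bf d ((t⁻¹).1 *ᵥ v) w = Bf d v (t.1 *ᵥ w) := by
      rw [← iso_bf d hti, e0]
    have b3 : Qf d w = Qf d (t.1 *ᵥ w) := (hti w).symm
    rw [e1, hE, Matrix.mulVec_sub, Matrix.mulVec_add, Matrix.mulVec_smul, Matrix.mulVec_smul,
      e0, hcu, b1, b2, b3, qf_smul, bf_smul_right]
    ext j
    simp only [Pi.sub_apply, Pi.add_apply, Pi.smul_apply, smul_eq_mul]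
    ring
  · rw [Pi.smul_apply, htw.1, smul_zero]
  · rw [Pi.smul_apply, htw.2, smul_zero]

theorem conj_eo (d : Fin q → R) {t : GL (Ix p q) R} (ht : t ∈ Dg R p q) :
    ∀ h ∈ EO d, t * h * t⁻¹ ∈ EO d := by
  intro h hh
  unfold EO at hh ⊢
  induction hh using Subgroup.closure_induction with
  | mem x hx =>
    obtain ⟨u, w, hx⟩ := hx
    exact Subgroup.subset_closure (conj_gen d ht hx)
  | one => rw [mul_one, mul_inv_cancel]; exact Subgroup.one_mem _
  | mul x y _ _ hx hy =>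
    have : t * (x * y) * t⁻¹ = (t * x * t⁻¹) * (t * y * t⁻¹) := by group
    rw [this]
    exact Subgroup.mul_mem _ hx hy
  | inv x _ hx =>
    have : t * x⁻¹ * t⁻¹ = (t * x * t⁻¹)⁻¹ := by group
    rw [this]
    exact Subgroup.inv_mem _ hx

end

theorem tNrm : SNrm := by
  intro R _ p q d
  refine ⟨?_, ?_⟩
  · apply Subgroup.normal_subgroupOf_of_le_normalizer
    unfold Ga
    rw [sup_le_iff]
    refine ⟨Subgroup.le_normalizer, ?_⟩
    intro t ht
    rw [Subgroup.mem_normalizer_iff]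
    intro h
    constructor
    · exact conj_eo d ht h
    · intro hh
      have h1 := conj_eo d (Subgroup.inv_mem _ ht) _ hh
      have h2 : t⁻¹ * (t * h * t⁻¹) * t⁻¹⁻¹ = h := by group
      rwa [h2] at h1
  · intro x hx
    have hle : Ga (p := p) d ≤ IsoG d := by
      unfold Ga
      rw [sup_le_iff]
      exact ⟨eo_le d, fun t ht => dg_iso d ht⟩
    exact hle hx

end Pool.Agent.Q153.ZO
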